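import Pool.Agent.R690.Vn.Main

set_option autoImplicit false

/-!
# Not all pairs of linear functions are v-number and regularity of powers of a monomial ideal
-/

namespace Pool.Agent.Results.MP_d985a5_al.NotAllQuadruples

open Pool.Agent.R690.Kos Pool.Agent.R690.Vn

universe u

/-- First part: if `I ≠ S` is a monomial ideal with `v(I^k) = k + b` and `reg(I^k) = c k + d` for
all large `k`, then either `(b, c, d) = (-1, 1, 0)` or `b ≥ 0` and `c ≥ 2`. Second part: so the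
quadruple `(1, 0, 1, 0)`, which satisfies all the numerical conditions, is not realized by any
monomial ideal. -/
theorem result :
    (∀ (K : Type u) [Field K] (n : ℕ) (G : Set (Fin n →₀ ℕ)), G.Finite → monIdeal K G ≠ ⊤ →
      ∀ b c d : ℤ, Realizes (monIdeal K G) 1 b c d →
        (b = -1 ∧ c = 1 ∧ d = 0) ∨ (0 ≤ b ∧ 2 ≤ c)) ∧
    ∃ a b c d : ℤ, 1 ≤ a ∧ -1 ≤ b ∧ 1 ≤ c ∧ 0 ≤ d ∧
      (∀ᶠ k : ℕ in Filter.atTop, a * k + b ≤ c * k + d) ∧
      ∀ (K : Type u) [Field K] (n : ℕ) (G : Set (Fin n →₀ ℕ)), G.Finite → monIdeal K G ≠ ⊤ →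
        ¬ Realizes (monIdeal K G) a b c d := by
  have h1 : ∀ (K : Type u) [Field K] (n : ℕ) (G : Set (Fin n →₀ ℕ)), G.Finite →
      monIdeal K G ≠ ⊤ → ∀ b c d : ℤ, Realizes (monIdeal K G) 1 b c d →
        (b = -1 ∧ c = 1 ∧ d = 0) ∨ (0 ≤ b ∧ 2 ≤ c) :=
    fun K _ n G hG htop b c d h => main hG htop h
  refine ⟨h1, 1, 0, 1, 0, le_rfl, by norm_num, le_rfl, le_rfl,
    Filter.Eventually.of_forall fun k => le_rfl, fun K _ n G hG htop h => ?_⟩
  rcases h1 K n G hG htop 0 1 0 h with h2 | h2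
  · exact absurd h2.1 (by norm_num)
  · exact absurd h2.2 (by norm_num)

end Pool.Agent.Results.MP_d985a5_al.NotAllQuadruples
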